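import Pool.Agent.H867Z.Lyn.Plane

set_option autoImplicit false

namespace Pool.Agent.Results.MP_24331d_lc.ANotWeak

universe u

/-- Some `L(m,0)` with `m ≥ 3` (namely `m = 6`) has no weak representation over any set. -/
theorem result : ∃ m : ℕ, 3 ≤ m ∧ ¬ Pool.Agent.H867Z.Lyn.WeaklyRepresentable.{u} m :=
  ⟨6, by norm_num, Pool.Agent.H867Z.Lyn.not_weak_six⟩

end Pool.Agent.Results.MP_24331d_lc.ANotWeak
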